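import Mathlib
import Pool.Agent.Run7.h285.S.Stm

/-!
# Project SYS (helper285), pieces SM1 and SM2: the second moment of a difference of two products

`main`: the second moment of `∏ F (n² + a l) - ∏ G (n² + a l)` from bounds for the correlations of `F`, `G` and `F - G`.
-/

set_option autoImplicit false

namespace Run7.h277.S

open Finset
open Run7.h285.S

/-- the functions of the telescoping sum -/
noncomputable def mx {k : ℕ} (F G : ℤ → ℝ) (j l : Fin k) : ℤ → ℝ :=
  if l = j then (fun y => F y - G y) else if l < j then F else G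

lemma mx_prod {k : ℕ} (F G : ℤ → ℝ) (a : Fin k → ℤ) (n : ℕ) :
    pr (fun _ => F) a n - pr (fun _ => G) a n = ∑ j : Fin k, pr (mx F G j) a n := by
  unfold pr
  have h := Finset.prod_add_ordered (univ : Finset (Fin k)) (fun l => G ((n : ℤ) ^ 2 + a l))
    (fun l => F ((n : ℤ) ^ 2 + a l) - G ((n : ℤ) ^ 2 + a l))
  simp only [add_sub_cancel] at h
  rw [h, add_sub_cancel_left]
  refine sum_congr rfl fun j _ => ?_
  have h1 : ∏ l : Fin k, mx F G j l ((n : ℤ) ^ 2 + a l) =
      (∏ l ∈ univ.filter (fun l : Fin k => l < j), mx F G j l ((n : ℤ) ^ 2 + a l)) *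
        ∏ l ∈ univ.filter (fun l : Fin k => ¬ l < j), mx F G j l ((n : ℤ) ^ 2 + a l) :=
    (prod_filter_mul_prod_filter_not univ (fun l : Fin k => l < j) _).symm
  have h2 : univ.filter (fun l : Fin k => ¬ l < j) = insert j (univ.filter (fun l : Fin k => j < l)) := by
    ext l
    simp only [mem_filter, mem_univ, true_and, mem_insert, not_lt]
    constructor
    · intro h
      rcases h.eq_or_lt with h | h
      · exact Or.inl h.symm
      · exact Or.inr h
    · rintro (h | h)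
      · exact h.symm.le
      · exact h.le
  rw [h1, h2, prod_insert (by simp)]
  have h3 : ∏ l ∈ univ.filter (fun l : Fin k => l < j), mx F G j l ((n : ℤ) ^ 2 + a l) =
      ∏ l ∈ univ.filter (fun l : Fin k => l < j), F ((n : ℤ) ^ 2 + a l) := by
    refine prod_congr rfl fun l hl => ?_
    rw [mem_filter] at hl
    unfold mx
    rw [if_neg hl.2.ne, if_pos hl.2]
  have h4 : ∏ l ∈ univ.filter (fun l : Fin k => j < l), mx F G j l ((n : ℤ) ^ 2 + a l) =
      ∏ l ∈ univ.filter (fun l : Fin k => j < l), G ((n : ℤ) ^ 2 + a l) := by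
    refine prod_congr rfl fun l hl => ?_
    rw [mem_filter] at hl
    unfold mx
    rw [if_neg hl.2.ne', if_neg (not_lt.2 hl.2.le)]
  have h5 : mx F G j j ((n : ℤ) ^ 2 + a j) = F ((n : ℤ) ^ 2 + a j) - G ((n : ℤ) ^ 2 + a j) := by
    unfold mx
    rw [if_pos rfl]
  rw [h3, h4, h5]
  ring

lemma cor_symm (f : ℤ → ℝ) (X n n' : ℕ) : cor f X n n' = cor f X n' n := by
  unfold cor
  exact sum_congr rfl fun c _ => mul_comm _ _

lemma cor_nonneg (f : ℤ → ℝ) (X n : ℕ) : 0 ≤ cor f X n n :=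
  sum_nonneg fun _ _ => mul_self_nonneg _

lemma cor_le {f : ℤ → ℝ} {B : ℝ} (hf : ∀ y, |f y| ≤ B) (X n n' : ℕ) :
    |cor f X n n'| ≤ (2 * X + 1) * B ^ 2 := by
  have hB : 0 ≤ B := (abs_nonneg _).trans (hf 0)
  unfold cor
  refine (abs_sum_le_sum_abs _ _).trans ?_
  have h1 : ∀ c ∈ Icc (-(X : ℤ)) X, |f ((n : ℤ) ^ 2 + c) * f ((n' : ℤ) ^ 2 + c)| ≤ B ^ 2 := by
    intro c _
    rw [abs_mul, sq B]
    exact mul_le_mul (hf _) (hf _) (abs_nonneg _) hB
  refine (sum_le_sum h1).trans (le_of_eq ?_)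
  rw [sum_const, Int.card_Icc, nsmul_eq_mul]
  have : ((X : ℤ) + 1 - -(X : ℤ)).toNat = 2 * X + 1 := by omega
  rw [this]
  push_cast
  ring

/-- the second moment over the constant terms -/
lemma expand {k : ℕ} (f : Fin k → ℤ → ℝ) (X : ℕ) (W : Finset ℕ) :
    ∑ a ∈ Bx k X, (∑ n ∈ W, pr f a n) ^ 2 = ∑ n ∈ W, ∑ n' ∈ W, ∏ l, cor (f l) X n n' := by
  have h1 : ∀ a ∈ Bx k X, (∑ n ∈ W, pr f a n) ^ 2 =
      ∑ n ∈ W, ∑ n' ∈ W, ∏ l, (f l ((n : ℤ) ^ 2 + a l) * f l ((n' : ℤ) ^ 2 + a l)) := by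
    intro a _
    rw [sq, sum_mul_sum]
    refine sum_congr rfl fun n _ => sum_congr rfl fun n' _ => ?_
    unfold pr
    rw [prod_mul_distrib]
  rw [sum_congr rfl h1, sum_comm]
  refine sum_congr rfl fun n _ => ?_
  rw [sum_comm]
  refine sum_congr rfl fun n' _ => ?_
  unfold cor Bx
  rw [Finset.prod_univ_sum]

/-- windows as sets of shifts -/
lemma win_shift (m H : ℕ) (g : ℕ → ℝ) : ∑ n ∈ Ioc m (m + H), g n = ∑ i ∈ Icc 1 H, g (m + i) := by
  refine sum_nbij' (fun i => i - m) (fun t => m + t) ?_ ?_ ?_ ?_ ?_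
  · intro i hi
    rw [mem_Ioc] at hi; rw [mem_Icc]; omega
  · intro t ht
    rw [mem_Icc] at ht; rw [mem_Ioc]; omega
  · intro i hi
    rw [mem_Ioc] at hi; omega
  · intro t ht
    omega
  · intro i hi
    rw [mem_Ioc] at hi
    show g i = g (m + (i - m))
    rw [show m + (i - m) = i by omega]

/-- **main** -/
theorem main (k X m₀ M H : ℕ) (F G : ℤ → ℝ) (d A e : ℝ) (hA : 0 ≤ A)
    (hdF : ∀ n, cor F X n n ≤ d) (hdG : ∀ n, cor G X n n ≤ d) (hdD : ∀ n, cor (fun y => F y - G y) X n n ≤ d)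
    (hAF : ∀ n n', |cor F X n n'| ≤ A) (hAG : ∀ n n', |cor G X n n'| ≤ A)
    (he : ∀ i j : ℕ, i < j → j ≤ H →
      ∑ m ∈ Ioc m₀ (m₀ + M), |cor (fun y => F y - G y) X (m + i) (m + j)| ≤ e) :
    MM (k + 1) (fun a n => pr (fun _ => F) a n - pr (fun _ => G) a n) X m₀ M H ≤
      ((k : ℝ) + 1) ^ 2 * (M * H * d ^ (k + 1) + (H : ℝ) ^ 2 * (A ^ k * e)) := by
  have hd0 : 0 ≤ d := (cor_nonneg F X 0).trans (hdF 0)
  unfold MM
  simp_rw [mx_prod]
  -- Cauchy-Schwarz
  have h1 : ∀ (a : Fin (k + 1) → ℤ) (m : ℕ), (∑ n ∈ Ioc m (m + H), ∑ j : Fin (k + 1), pr (mx F G j) a n) ^ 2 ≤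
      ((k : ℝ) + 1) * ∑ j : Fin (k + 1), (∑ n ∈ Ioc m (m + H), pr (mx F G j) a n) ^ 2 := by
    intro a m
    rw [sum_comm]
    have := sq_sum_le_card_mul_sum_sq (s := (univ : Finset (Fin (k + 1))))
      (f := fun j => ∑ n ∈ Ioc m (m + H), pr (mx F G j) a n)
    rw [card_univ, Fintype.card_fin] at this
    push_cast at this
    exact this
  have h2 : ∀ j : Fin (k + 1), ∑ m ∈ Ioc m₀ (m₀ + M), ∑ a ∈ Bx (k + 1) X, (∑ n ∈ Ioc m (m + H), pr (mx F G j) a n) ^ 2 ≤
      M * H * d ^ (k + 1) + (H : ℝ) ^ 2 * (A ^ k * e) := by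
    intro j
    have h3 : ∀ m, ∑ a ∈ Bx (k + 1) X, (∑ n ∈ Ioc m (m + H), pr (mx F G j) a n) ^ 2 =
        ∑ i ∈ Icc 1 H, ∑ i' ∈ Icc 1 H, ∏ l, cor (mx F G j l) X (m + i) (m + i') := by
      intro m
      rw [expand, win_shift]
      refine sum_congr rfl fun i _ => ?_
      rw [win_shift]
    rw [sum_congr rfl fun m _ => h3 m]
    have h4 : ∀ i ∈ Icc 1 H, ∑ m ∈ Ioc m₀ (m₀ + M), ∑ i' ∈ Icc 1 H, ∏ l, cor (mx F G j l) X (m + i) (m + i') ≤
        M * d ^ (k + 1) + H * (A ^ k * e) := by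
      intro i hi
      rw [sum_comm]
      have he0 : 0 ≤ e := by
        rw [mem_Icc] at hi
        exact (sum_nonneg fun _ _ => abs_nonneg _).trans (he 0 1 (by omega) (by omega))
      have h5 : ∀ i' ∈ Icc 1 H, ∑ m ∈ Ioc m₀ (m₀ + M), ∏ l, cor (mx F G j l) X (m + i) (m + i') ≤
          (if i' = i then M * d ^ (k + 1) else 0) + A ^ k * e := by
        intro i' hi'
        rw [mem_Icc] at hi hi'
        split_ifs with hii
        · rw [hii]
          have h6 : ∀ m ∈ Ioc m₀ (m₀ + M), ∏ l, cor (mx F G j l) X (m + i) (m + i) ≤ d ^ (k + 1) := by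
            intro m _
            calc ∏ l, cor (mx F G j l) X (m + i) (m + i) ≤ ∏ _l : Fin (k + 1), d := by
                  refine prod_le_prod (fun l _ => cor_nonneg _ _ _) fun l _ => ?_
                  unfold mx
                  split_ifs
                  · exact hdD _
                  · exact hdF _
                  · exact hdG _
              _ = _ := by rw [prod_const, card_univ, Fintype.card_fin]
          refine (sum_le_sum h6).trans ?_
          rw [sum_const, Nat.card_Ioc, nsmul_eq_mul, Nat.add_sub_cancel_left]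
          have : 0 ≤ A ^ k * e := by positivity
          linarith
        · rw [zero_add]
          have h6 : ∀ m ∈ Ioc m₀ (m₀ + M), ∏ l, cor (mx F G j l) X (m + i) (m + i') ≤
              A ^ k * |cor (fun y => F y - G y) X (m + i) (m + i')| := by
            intro m _
            refine (le_abs_self _).trans ?_
            rw [abs_prod, ← mul_prod_erase univ _ (mem_univ j), mul_comm]
            have e1 : mx F G j j = fun y => F y - G y := by unfold mx; rw [if_pos rfl]
            rw [e1]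
            apply mul_le_mul_of_nonneg_right _ (abs_nonneg _)
            calc ∏ l ∈ univ.erase j, |cor (mx F G j l) X (m + i) (m + i')| ≤ ∏ _l ∈ univ.erase j, A := by
                  refine prod_le_prod (fun l _ => abs_nonneg _) fun l hl => ?_
                  rw [mem_erase] at hl
                  unfold mx
                  rw [if_neg hl.1]
                  split_ifs
                  · exact hAF _ _
                  · exact hAG _ _
              _ = _ := by rw [prod_const, card_erase_of_mem (mem_univ j), card_univ, Fintype.card_fin, Nat.add_sub_cancel]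
          refine (sum_le_sum h6).trans ?_
          rw [← mul_sum]
          apply mul_le_mul_of_nonneg_left _ (by positivity)
          rcases lt_or_gt_of_ne hii with h | h
          · refine le_trans (le_of_eq ?_) (he i' i h hi.2)
            exact sum_congr rfl fun m _ => by rw [cor_symm]
          · exact he i i' h hi'.2
      refine (sum_le_sum h5).trans ?_
      rw [sum_add_distrib, sum_ite_eq' (Icc 1 H) i, if_pos hi, sum_const, Nat.card_Icc, nsmul_eq_mul]
      simp
    rw [sum_comm]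
    refine (sum_le_sum h4).trans (le_of_eq ?_)
    rw [sum_const, Nat.card_Icc, nsmul_eq_mul, Nat.add_sub_cancel]
    ring
  calc ∑ a ∈ Bx (k + 1) X, ∑ m ∈ Ioc m₀ (m₀ + M), (∑ n ∈ Ioc m (m + H), ∑ j : Fin (k + 1), pr (mx F G j) a n) ^ 2
      ≤ ∑ a ∈ Bx (k + 1) X, ∑ m ∈ Ioc m₀ (m₀ + M),
          ((k : ℝ) + 1) * ∑ j : Fin (k + 1), (∑ n ∈ Ioc m (m + H), pr (mx F G j) a n) ^ 2 :=
        sum_le_sum fun a _ => sum_le_sum fun m _ => h1 a m
    _ = ((k : ℝ) + 1) * ∑ j : Fin (k + 1), ∑ m ∈ Ioc m₀ (m₀ + M), ∑ a ∈ Bx (k + 1) X,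
          (∑ n ∈ Ioc m (m + H), pr (mx F G j) a n) ^ 2 := by
        simp_rw [← mul_sum]
        congr 1
        rw [sum_comm]
        rw [sum_congr rfl fun m _ => sum_comm (s := Bx (k + 1) X), sum_comm]
    _ ≤ ((k : ℝ) + 1) * ∑ _j : Fin (k + 1), (M * H * d ^ (k + 1) + (H : ℝ) ^ 2 * (A ^ k * e)) :=
        mul_le_mul_of_nonneg_left (sum_le_sum fun j _ => h2 j) (by positivity)
    _ = _ := by
        rw [sum_const, card_univ, Fintype.card_fin, nsmul_eq_mul]
        push_cast
        ring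

end Run7.h277.S
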