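import Mathlib
import Pool.Agent.Run7.h277.S.Main
import Pool.Agent.TH892.OW.B5a

/-!
# Project SYS (helper285), piece SM2
-/

set_option autoImplicit false

namespace Run7.h277.S

open Finset Filter
open Run7.h285.S
open Pool.Agent.H373R2.T7 (pz Vz lamz)
open Pool.Agent.H442R2.EHI (evt_log_pow evt_log_ge)
open Pool.Agent.TH892.OW (Vz_log evt_ll evt_ll_ge S_facts)

lemma ll_nonneg (z : ℕ) (y : ℤ) : 0 ≤ ll z y := Pool.Agent.H373R2.T7.lamz_nonneg z _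

lemma ll_le (z : ℕ) (y : ℤ) : ll z y ≤ (Vz z)⁻¹ := by
  unfold ll lamz
  split_ifs
  · exact le_rfl
  · exact (inv_pos.2 (Pool.Agent.H373R2.T7.Vz_pos z)).le

/-- **SM2** -/
theorem sm2 (h : S_CF) (k : ℕ) : S_SM2 k := by
  rcases k with _ | k
  · -- the empty product
    refine fun C D E u V _ _ => ⟨3, fun X hX m₀ M H _ _ _ _ => ?_⟩
    unfold MM pr
    simp only [univ_eq_empty, prod_empty, sub_self, sum_const_zero, ne_eq, OfNat.ofNat_ne_zero, not_false_eq_true,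
      zero_pow]
    have h1 : 0 ≤ Real.log (Real.log X) := by
      apply Real.log_nonneg
      rw [← Real.log_exp 1]
      apply Real.log_le_log (Real.exp_pos _)
      have := Real.exp_one_lt_d9
      have h3 : (3 : ℝ) ≤ X := by exact_mod_cast hX
      linarith
    positivity
  intro C D E u V hE hu
  obtain ⟨X1, hCF⟩ := h C D E u (V + 4 * k + 1) hE hu
  obtain ⟨CV, hCV1, hCV⟩ := Vz_log
  obtain ⟨K, hK⟩ : ∃ K : ℝ, K = CV * ((E : ℝ) + 1) ^ 2 := ⟨_, rfl⟩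
  have hE0 : (1 : ℝ) ≤ E := by exact_mod_cast hE
  have hK1 : 1 ≤ K := by
    rw [hK]
    nlinarith [sq_nonneg (E : ℝ)]
  have hu0 : (0 : ℝ) < 1 / (u : ℝ) := by
    have : (0 : ℝ) < u := by exact_mod_cast hu
    positivity
  have hlim : ∀ᶠ X : ℕ in atTop, (3 : ℝ) ≤ Real.log X ^ (1 / (u : ℝ)) := by
    have h1 : Tendsto (fun X : ℕ => Real.log (X : ℝ)) atTop atTop :=
      Real.tendsto_log_atTop.comp (tendsto_natCast_atTop_atTop (R := ℝ))
    exact ((tendsto_rpow_atTop hu0).comp h1).eventually_ge_atTop 3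
  have hev : ∀ᶠ X : ℕ in atTop, (10000 : ℝ) ≤ Real.log X ∧ (3 : ℝ) ≤ Real.log X ^ (1 / (u : ℝ)) ∧
      ((k : ℝ) + 1) ^ 2 * (3 * K ^ 2) ^ (k + 1) * Real.log (Real.log X) ^ (4 * (k + 1)) ≤ Real.log X ^ (1 / 2 : ℝ) ∧
      ((k : ℝ) + 1) ^ 2 * (3 * K ^ 2) ^ k ≤ Real.log (Real.log X) := by
    filter_upwards [evt_log_ge 10000, hlim, evt_ll (4 * (k + 1)) (1 / 2) (((k : ℝ) + 1) ^ 2 * (3 * K ^ 2) ^ (k + 1)) (by norm_num),
      evt_ll_ge (((k : ℝ) + 1) ^ 2 * (3 * K ^ 2) ^ k)] with X h1 h2 h3 h4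
    exact ⟨h1, h2, h3, h4⟩
  obtain ⟨X3, hX3⟩ := eventually_atTop.1 hev
  refine ⟨max X1 X3, ?_⟩
  intro X hX m₀ M H hH1 hHD hM hm
  obtain ⟨hL, hw3', hll, hllk⟩ := hX3 X ((le_max_right _ _).trans hX)
  have hCFX := hCF X ((le_max_left _ _).trans hX)
  obtain ⟨hX1, -⟩ := S_facts X hL
  have hX0 : (1 : ℝ) ≤ X := by exact_mod_cast hX1
  rw [← Real.sqrt_eq_rpow] at hll
  set L := Real.log X with hLdef
  have hL1 : 1 ≤ L := by linarith
  have hL0 : 0 < L := by linarith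
  set z := ⌊L ^ E⌋₊ with hz
  set w := ⌊L ^ (1 / (u : ℝ))⌋₊ with hw
  have hLE : L ≤ L ^ E := by
    calc L = L ^ 1 := (pow_one _).symm
      _ ≤ L ^ E := pow_le_pow_right₀ hL1 hE
  have hz3 : 3 ≤ z := by
    rw [hz]; apply Nat.le_floor; push_cast; linarith
  have hw3 : 3 ≤ w := by
    rw [hw]; apply Nat.le_floor; exact_mod_cast hw3'
  have hzle : (z : ℝ) ≤ L ^ E := Nat.floor_le (by positivity)
  have hwle : (w : ℝ) ≤ L ^ E := by
    refine (Nat.floor_le (by positivity)).trans ?_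
    calc L ^ (1 / (u : ℝ)) ≤ L ^ (1 : ℝ) := by
          apply Real.rpow_le_rpow_of_exponent_le hL1
          rw [div_le_one (by exact_mod_cast hu)]
          exact_mod_cast hu
      _ = L := Real.rpow_one _
      _ ≤ _ := hLE
  have hl1 : 1 ≤ Real.log L := by
    rw [← Real.log_exp 1]
    apply Real.log_le_log (Real.exp_pos _)
    have := Real.exp_one_lt_d9
    linarith
  set l := Real.log L with hldef
  have hl0 : 0 < l := by linarith
  have hVx : ∀ x : ℕ, 3 ≤ x → (x : ℝ) ≤ L ^ E → (Vz x)⁻¹ ≤ K * l ^ 2 := by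
    intro x hx3 hxle
    have h1 := hCV x hx3
    have hlogx : Real.log x ≤ (E + 1) * l := by
      have h1 : (0 : ℝ) < x := by exact_mod_cast (by omega : 0 < x)
      have := Real.log_le_log h1 hxle
      rw [Real.log_pow] at this
      nlinarith
    have hlx0 : 0 ≤ Real.log x := Real.log_natCast_nonneg x
    calc (Vz x)⁻¹ ≤ CV * Real.log x ^ 2 := h1
      _ ≤ CV * ((E + 1) * l) ^ 2 := by gcongr
      _ = K * l ^ 2 := by rw [hK]; ring
  have hVz := hVx z hz3 hzle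
  have hVw := hVx w hw3 hwle
  have hFz : ∀ y, |ll z y| ≤ K * l ^ 2 := by
    intro y
    rw [abs_of_nonneg (ll_nonneg _ _)]
    exact (ll_le _ _).trans hVz
  have hFw : ∀ y, |ll w y| ≤ K * l ^ 2 := by
    intro y
    rw [abs_of_nonneg (ll_nonneg _ _)]
    exact (ll_le _ _).trans hVw
  have hFD : ∀ y, |ll z y - ll w y| ≤ K * l ^ 2 := by
    intro y
    rw [abs_le]
    have h1 := ll_nonneg z y
    have h2 := ll_nonneg w y
    have h3 := (ll_le z y).trans hVz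
    have h4 := (ll_le w y).trans hVw
    constructor <;> linarith
  have hA : (2 * (X : ℝ) + 1) * (K * l ^ 2) ^ 2 ≤ X * (3 * K ^ 2 * l ^ 4) := by
    have h1 : (2 * (X : ℝ) + 1) * (K * l ^ 2) ^ 2 ≤ (3 * X) * (K * l ^ 2) ^ 2 := by
      apply mul_le_mul_of_nonneg_right _ (by positivity)
      linarith
    refine h1.trans (le_of_eq ?_)
    ring
  have hm2 := main k X m₀ M H (ll z) (ll w) (X * (3 * K ^ 2 * l ^ 4)) (X * (3 * K ^ 2 * l ^ 4))
    (X * M / l ^ (V + 4 * k + 1)) (by positivity)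
    (fun n => (le_abs_self _).trans ((cor_le hFz X n n).trans hA))
    (fun n => (le_abs_self _).trans ((cor_le hFw X n n).trans hA))
    (fun n => (le_abs_self _).trans ((cor_le hFD X n n).trans hA))
    (fun n n' => (cor_le hFz X n n').trans hA)
    (fun n n' => (cor_le hFw X n n').trans hA)
    (fun i j hij hjH => hCFX m₀ M i j hij ((by exact_mod_cast hjH : (j : ℝ) ≤ H).trans hHD) hM hm)
  refine hm2.trans ?_
  have hH0 : (0 : ℝ) ≤ H := Nat.cast_nonneg _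
  have hM0 : (0 : ℝ) ≤ M := Nat.cast_nonneg _
  have t1 : ((k : ℝ) + 1) ^ 2 * (M * H * (X * (3 * K ^ 2 * l ^ 4)) ^ (k + 1)) ≤
      (X : ℝ) ^ (k + 1) * M * (H * √L) := by
    have e1 : ((k : ℝ) + 1) ^ 2 * (M * H * (X * (3 * K ^ 2 * l ^ 4)) ^ (k + 1)) =
        (X : ℝ) ^ (k + 1) * M * (H * (((k : ℝ) + 1) ^ 2 * (3 * K ^ 2) ^ (k + 1) * l ^ (4 * (k + 1)))) := by
      rw [mul_pow, mul_pow (3 * K ^ 2) (l ^ 4), ← pow_mul]
      ring
    rw [e1]
    gcongr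
  have t2 : ((k : ℝ) + 1) ^ 2 * ((H : ℝ) ^ 2 * ((X * (3 * K ^ 2 * l ^ 4)) ^ k * (X * M / l ^ (V + 4 * k + 1)))) ≤
      (X : ℝ) ^ (k + 1) * M * ((H : ℝ) ^ 2 / l ^ V) := by
    have e1 : (l ^ (V + 4 * k + 1) : ℝ) = l ^ V * (l ^ 4) ^ k * l := by rw [pow_succ, pow_add, pow_mul]
    have e2 : ((k : ℝ) + 1) ^ 2 * ((H : ℝ) ^ 2 * ((X * (3 * K ^ 2 * l ^ 4)) ^ k * (X * M / l ^ (V + 4 * k + 1)))) =
        (X : ℝ) ^ (k + 1) * M * ((H : ℝ) ^ 2 / l ^ V) * ((((k : ℝ) + 1) ^ 2 * (3 * K ^ 2) ^ k) / l) := by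
      rw [e1, mul_pow, mul_pow (3 * K ^ 2) (l ^ 4)]
      field_simp
      ring
    rw [e2]
    have h5 : (((k : ℝ) + 1) ^ 2 * (3 * K ^ 2) ^ k) / l ≤ 1 := by
      rw [div_le_one hl0]
      exact hllk
    have h6 : 0 ≤ (X : ℝ) ^ (k + 1) * M * ((H : ℝ) ^ 2 / l ^ V) := by positivity
    exact mul_le_of_le_one_right h6 h5
  calc ((k : ℝ) + 1) ^ 2 * (M * H * (X * (3 * K ^ 2 * l ^ 4)) ^ (k + 1) +
        (H : ℝ) ^ 2 * ((X * (3 * K ^ 2 * l ^ 4)) ^ k * (X * M / l ^ (V + 4 * k + 1))))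
      = ((k : ℝ) + 1) ^ 2 * (M * H * (X * (3 * K ^ 2 * l ^ 4)) ^ (k + 1)) +
        ((k : ℝ) + 1) ^ 2 * ((H : ℝ) ^ 2 * ((X * (3 * K ^ 2 * l ^ 4)) ^ k * (X * M / l ^ (V + 4 * k + 1)))) := by ring
    _ ≤ (X : ℝ) ^ (k + 1) * M * (H * √L) + (X : ℝ) ^ (k + 1) * M * ((H : ℝ) ^ 2 / l ^ V) := add_le_add t1 t2
    _ = _ := by ring

end Run7.h277.S
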